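import Mathlib
import Pool.Agent.H304R4.CM.HandIn
import Pool.Agent.H304R4.CM.PartTwo

set_option autoImplicit false

open Complex MeasureTheory Filter Topology Asymptotics

namespace Pool.Agent.Results.MP_56c76e_nt.CubicMoment

/-- Hardy's function `Z` exists as a real valued function, and there is `c < 1` with
`∫_0^T Z(t)^3 dt = O(T^c)`. -/
theorem result :
    (∃ Z : ℝ → ℝ, ∀ t : ℝ, (Z t : ℂ) = (Real.pi : ℂ) ^ (-(I * t / 2)) *
      (Complex.Gamma (1 / 4 + I * t / 2) / (‖Complex.Gamma (1 / 4 + I * t / 2)‖ : ℂ)) *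
      riemannZeta (1 / 2 + I * t)) ∧
    ∃ c : ℝ, 0 < c ∧ c < 1 ∧ ∀ Z : ℝ → ℝ, (∀ t : ℝ, (Z t : ℂ) = (Real.pi : ℂ) ^ (-(I * t / 2)) *
      (Complex.Gamma (1 / 4 + I * t / 2) / (‖Complex.Gamma (1 / 4 + I * t / 2)‖ : ℂ)) *
      riemannZeta (1 / 2 + I * t)) →
      (fun T : ℝ => ∫ t in (0 : ℝ)..T, Z t ^ 3) =O[atTop] (fun T : ℝ => T ^ c) :=
  Pool.Agent.H304R4.CM.final_of_box Pool.Agent.H304R4.CM.boxBound

end Pool.Agent.Results.MP_56c76e_nt.CubicMoment
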